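import Mathlib
import Pool.Agent.H30.Q6

namespace Pool.Agent.Results.MP_4dd1f4_al.NoSix

open Equiv Pool.Agent.H30.Q6 Quandles

/-- The inner automorphism group of a quandle. -/
def Inn (P : Type*) [Quandle P] : Subgroup (Perm P) :=
  Subgroup.closure (Set.range fun x : P => (Rack.act' x : Perm P))

/-- `f` is surjective and the inner automorphisms preserving every fiber act `2`-transitively on
each fiber. -/
def DoublyTransitive {P Q : Type*} [Quandle P] [Quandle Q] (f : ShelfHom P Q) : Prop :=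
  Function.Surjective f ∧ ∀ (q : Q) (x y x' y' : P), f x = q → f y = q → f x' = q → f y' = q →
    x ≠ y → x' ≠ y' → ∃ g ∈ Inn P, (∀ z, f (g z) = f z) ∧ g x = x' ∧ g y = y'

abbrev S6 := Perm (Fin 6)

def code (σ : S6) : ℕ := (σ 0 : ℕ) + 8 * (σ 1 : ℕ) + 64 * (σ 2 : ℕ) + 512 * (σ 3 : ℕ)
  + 4096 * (σ 4 : ℕ) + 32768 * (σ 5 : ℕ)

lemma ap_code (σ : S6) (i : Fin 6) : ap (code σ) i = σ i := by
  have h0 := (σ 0).2; have h1 := (σ 1).2; have h2 := (σ 2).2
  have h3 := (σ 3).2; have h4 := (σ 4).2; have h5 := (σ 5).2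
  fin_cases i <;> simp [ap, code, Nat.shiftRight_eq_div_pow] <;> omega

lemma apn (σ : S6) : ap (code σ) 0 = σ 0 ∧ ap (code σ) 1 = σ 1 ∧ ap (code σ) 2 = σ 2 ∧
    ap (code σ) 3 = σ 3 ∧ ap (code σ) 4 = σ 4 ∧ ap (code σ) 5 = σ 5 :=
  ⟨ap_code σ 0, ap_code σ 1, ap_code σ 2, ap_code σ 3, ap_code σ 4, ap_code σ 5⟩

lemma code_inj {σ τ : S6} (h : code σ = code τ) : σ = τ := by
  ext i
  rw [← ap_code, h, ap_code]

lemma ml_code (σ τ : S6) : ml (code σ) (code τ) = code (σ * τ) := by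
  obtain ⟨h0, h1, h2, h3, h4, h5⟩ := apn τ
  simp only [ml, h0, h1, h2, h3, h4, h5, ap_code]
  rfl

lemma dg_code (x y : S6) : dg (code x) (code y) = (y * x⁻¹).support.card := by
  have e : (y * x⁻¹).support.card = (Finset.univ.filter fun i => x i ≠ y i).card := by
    symm
    refine Finset.card_bij (fun i _ => x i) (fun i hi => ?_) (fun i _ j _ h => x.injective h)
      (fun j hj => ⟨x⁻¹ j, ?_, by simp⟩)
    · simpa [eq_comm] using hi
    · simpa [eq_comm] using hj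
  obtain ⟨h0, h1, h2, h3, h4, h5⟩ := apn x
  obtain ⟨k0, k1, k2, k3, k4, k5⟩ := apn y
  have n : ∀ a b : Fin 6, ne1 a b = if a ≠ b then 1 else 0 := by decide
  rw [e, Finset.card_filter, Fin.sum_univ_six]
  simp only [dg, h0, h1, h2, h3, h4, h5, k0, k1, k2, k3, k4, k5, n]

lemma mem_L5 (σ : S6) (h : σ ^ 5 = 1) : code σ ∈ L5 := by
  have m : ∀ i : Fin 6, (i : ℕ) ∈ R6 := by decide
  have H := complete
  simp only [List.all_eq_true] at H
  have H2 : H30.Q6.cmp (code σ) = true := H _ (m _) _ (m _) _ (m _) _ (m _) _ (m _) _ (m _)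
  have p : ∀ i : Fin 6, p5 (code σ) i = true := by
    intro i
    have : σ (σ (σ (σ (σ i)))) = i := by
      have := congrArg (fun τ : S6 => τ i) h
      simpa [pow_succ] using this
    simp [p5, ap_code, this]
  have p0 : p5 (code σ) 0 = true := p 0
  have p1 : p5 (code σ) 1 = true := p 1
  have p2 : p5 (code σ) 2 = true := p 2
  have p3 : p5 (code σ) 3 = true := p 3
  have p4 : p5 (code σ) 4 = true := p 4
  have p5' : p5 (code σ) 5 = true := p 5
  simp only [H30.Q6.cmp, p0, p1, p2, p3, p4, p5', Bool.and_self, Bool.not_true, Bool.false_or,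
    List.any_eq_true, Nat.beq_eq] at H2
  obtain ⟨d, hd, rfl⟩ := H2
  exact hd

def A0 : S6 := ⟨![0, 2, 3, 4, 5, 1], ![0, 5, 1, 2, 3, 4], by decide, by decide⟩

lemma pw5 (L : Subgroup (S6 × S6)) (u : S6 × S6) (hu : u ∈ L) (h : u.1 ^ 5 = 1) :
    ∃ c, (u.1, c) ∈ L ∧ c ^ 5 = 1 := by
  refine ⟨u.2 ^ 576, ?_, ?_⟩
  · have e : u.1 ^ 576 = u.1 := by
      rw [show 576 = 5 * 115 + 1 from rfl, pow_succ, pow_mul, h]; simp
    have := L.pow_mem hu 576
    rwa [Prod.pow_def, e] at this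
  · have : u.2 ^ 720 = 1 := by
      have := pow_card_eq_one (x := u.2)
      rwa [Fintype.card_perm, Fintype.card_fin] at this
    rw [← pow_mul, show 576 * 5 = 720 * 4 from rfl, pow_mul, this, one_pow]

lemma core (L : Subgroup (S6 × S6))
    (h1 : ∀ u ∈ L, ∀ v ∈ L, u.1 ≠ u.2 → v.1 ≠ v.2 →
      (u.2 * u.1⁻¹).support.card = (v.2 * v.1⁻¹).support.card)
    (h2 : ∀ p, ∃ u ∈ L, u.1 ≠ 1 ∧ u.1 ^ 5 = 1 ∧ u.1 p = p)
    (h4 : ∀ u ∈ L, ∃ v ∈ L, v.1 = u.2) (b : S6) (hb : (A0, b) ∈ L) (hb5 : b ^ 5 = 1)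
    (hne : A0 ≠ b) : False := by
  have cA : code A0 = 55504 := by decide
  have c1 : code 1 = 181896 := by decide
  obtain ⟨u, hu, hu1, hu5, hup⟩ := h2 1
  obtain ⟨b2, hb2, hb25⟩ := pw5 L u hu hu5
  obtain ⟨v, hv, hv1⟩ := h4 _ hb
  obtain ⟨c, hc, hc5⟩ := pw5 L v hv (hv1 ▸ hb5)
  rw [hv1] at hc
  have key : ∀ x y, (∃ w ∈ L, code w.1 = x ∧ code w.2 = y) →
      tt (dg 55504 (code b)) (dg x y) = false := by
    rintro _ _ ⟨w, hw, rfl, rfl⟩
    rw [← cA, dg_code, dg_code]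
    by_cases h : w.1 = w.2
    · simp [tt, h]
    · have := h1 _ hb w hw hne h
      simp only at this
      simp [tt, this]
  have evg : ∀ (x z x' z' : S6), (x, z) ∈ L → (x', z') ∈ L → ∀ w : List ℕ,
      ∃ t ∈ L, code t.1 = ev 55504 (code x) (code x') w ∧
        code t.2 = ev (code b) (code z) (code z') w := by
    intro x z x' z' h h' w
    have g : ∀ i : ℕ, ∃ t ∈ L, code t.1 = cond (Nat.beq i 0) 55504 (cond (Nat.beq i 1) (code x)
        (code x')) ∧ code t.2 = cond (Nat.beq i 0) (code b) (cond (Nat.beq i 1) (code z)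
        (code z')) := by
      intro i
      cases Nat.beq i 0
      · cases Nat.beq i 1
        · exact ⟨_, h', rfl, rfl⟩
        · exact ⟨_, h, rfl, rfl⟩
      · exact ⟨_, hb, cA, rfl⟩
    induction w with
    | nil => exact ⟨1, L.one_mem, c1, c1⟩
    | cons i w ih =>
      cases w with
      | nil => exact g i
      | cons j w =>
        obtain ⟨t, ht, e1, e2⟩ := g i
        obtain ⟨r, hr, f1, f2⟩ := ih
        refine ⟨t * r, L.mul_mem ht hr, ?_, ?_⟩
        · rw [Prod.fst_mul, ← ml_code, e1, f1]; rfl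
        · rw [Prod.snd_mul, ← ml_code, e2, f2]; rfl
  have H := all_chk _ (mem_L5 b hb5)
  simp only [chk, Bool.or_eq_true, List.all_eq_true, List.any_eq_true, Nat.beq_eq] at H
  rcases H with (H | H) | H
  · exact hne (code_inj (cA.trans H.symm))
  · rw [key _ _ ⟨(A0, b) * (A0, b), L.mul_mem hb hb, by rw [← cA, ml_code]; rfl,
      by rw [ml_code]; rfl⟩] at H
    exact absurd H (by simp)
  rcases H _ (mem_L5 _ hu5) with (H | H) | H
  · exact hu1 (code_inj (H.trans c1.symm))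
  · have : ap (code u.1) 1 = 1 := by rw [(apn u.1).2.1, hup]; rfl
    simp [this] at H
  rcases H _ (mem_L5 _ hb25) with ⟨w, hw, H⟩ | H
  · have hw' : ev (code b) (code b2) (code b) w = ev (code b) (code b2) (code c) w := by
      simp only [W2, List.mem_cons, List.not_mem_nil, or_false] at hw
      rcases hw with rfl | rfl | rfl | rfl | rfl | rfl | rfl | rfl | rfl | rfl <;> rfl
    rw [hw', key _ _ (evg _ _ _ _ hb2 hc w)] at H
    exact absurd H (by simp)
  · obtain ⟨w, -, H⟩ := H _ (mem_L5 _ hc5)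
    rw [key _ _ (evg _ _ _ _ hb2 hc w)] at H
    exact absurd H (by simp)

lemma cyc (a : S6) (h1 : a ≠ 1) (h5 : a ^ 5 = 1) : a.IsCycle ∧ a.support.card = 5 := by
  haveI : Fact (Nat.Prime 5) := ⟨by norm_num⟩
  have ho : orderOf a = 5 := orderOf_eq_prime h5 h1
  have hc : a.IsCycle := Perm.isCycle_of_prime_order' (by rw [ho]; norm_num) (by rw [ho]; simp)
  exact ⟨hc, by rw [← hc.orderOf, ho]⟩

lemma fin6 (L : Subgroup (S6 × S6))
    (h1 : ∀ u ∈ L, ∀ v ∈ L, u.1 ≠ u.2 → v.1 ≠ v.2 →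
      (u.2 * u.1⁻¹).support.card = (v.2 * v.1⁻¹).support.card)
    (h2 : ∀ p, ∃ u ∈ L, u.1 ≠ 1 ∧ u.1 ^ 5 = 1 ∧ u.1 p = p)
    (h4 : ∀ u ∈ L, ∃ v ∈ L, v.1 = u.2) (h3 : ∃ u ∈ L, u.1 ≠ u.2) : False := by
  have main : ∀ a b : S6, (a, b) ∈ L → a ≠ 1 → a ^ 5 = 1 → b ^ 5 = 1 → a = b := by
    intro a b hab ha1 ha5 hb5
    by_contra hne
    obtain ⟨c1, c2⟩ := cyc a ha1 ha5
    obtain ⟨c3, c4⟩ := cyc A0 (by decide) (by decide)
    obtain ⟨π, hπ⟩ := isConj_iff.1 (c3.isConj c1 (c4.trans c2.symm))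
    let φ : S6 ≃* S6 := MulAut.conj π
    let Φ : S6 × S6 →* S6 × S6 := φ.toMonoidHom.prodMap φ.toMonoidHom
    have hs : ∀ z : S6, (φ z).support.card = z.support.card := fun z => Perm.card_support_conj
    refine core (L.comap Φ) (fun u hu v hv hu' hv' => ?_) (fun p => ?_) (fun u hu => ?_)
      (φ.symm b) ?_ (by rw [← map_pow, hb5, map_one]) (fun h => hne ?_)
    · have := h1 _ hu _ hv (fun h => hu' (φ.injective h)) (fun h => hv' (φ.injective h))
      rw [← hs, ← hs (v.2 * v.1⁻¹), map_mul, map_mul, map_inv, map_inv]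
      exact this
    · obtain ⟨u, hu, e1, e2, e3⟩ := h2 (π p)
      refine ⟨(φ.symm u.1, φ.symm u.2), ?_, by simpa using e1, by rw [← map_pow, e2, map_one], ?_⟩
      · simpa [Φ] using hu
      · simp [φ, e3]
    · obtain ⟨v, hv, e⟩ := h4 _ hu
      refine ⟨(φ.symm v.1, φ.symm v.2), by simpa [Φ] using hv, ?_⟩
      rw [e]; simp [Φ]
    · have : φ A0 = a := hπ
      simpa [Φ, this] using hab
    · have : φ A0 = a := hπ
      rw [← this, h]; simp
  obtain ⟨u, hu, hne⟩ := h3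
  refine hne ?_
  ext p
  obtain ⟨v, hv, e1, e5, ep⟩ := h2 p
  obtain ⟨c, hc, hc5⟩ := pw5 L v hv e5
  obtain rfl := main _ _ hc e1 e5 hc5
  have hm := L.mul_mem (L.mul_mem hu hc) (L.inv_mem hu)
  have e := main (u.1 * v.1 * u.1⁻¹) (u.2 * v.1 * u.2⁻¹) hm (by simpa using e1)
    (by rw [conj_pow, e5]; simp) (by rw [conj_pow, e5]; simp)
  have e2 : v.1 (u.1⁻¹ (u.2 p)) = u.1⁻¹ (u.2 p) := by
    have := congrArg (fun τ : S6 => u.1⁻¹ (τ (u.2 p))) e
    simpa [ep] using this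
  have hcard : (v.1.supportᶜ).card = 1 := by
    rw [Finset.card_compl, (cyc _ e1 e5).2]; rfl
  have := Finset.card_le_one.1 hcard.le p (by simp [ep]) (u.1⁻¹ (u.2 p)) (by simpa using e2)
  congr 1
  conv_lhs => rw [this]
  simp

variable {P Q : Type*} [Quandle P] [Quandle Q]

lemma ais {X : Type*} (g : Perm X) (x : X) : g (g⁻¹ x) = x := by simp

lemma inn_conj {g : Perm P} (hg : g ∈ Inn P) (y : P) :
    (Rack.act' (g y) : Perm P) = g * Rack.act' y * g⁻¹ := by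
  induction hg using Subgroup.closure_induction generalizing y with
  | mem x hx => obtain ⟨x, rfl⟩ := hx; exact Rack.ad_conj x y
  | one => simp
  | mul a b _ _ ha hb => rw [Perm.mul_apply, ha, hb]; group
  | inv a _ ha =>
    have := ha (a⁻¹ y)
    rw [ais] at this
    rw [this]; group

lemma inn_fib (f : ShelfHom P Q) {g : Perm P} (hg : g ∈ Inn P) (x y : P) :
    f (g x) = f (g y) ↔ f x = f y := by
  induction hg using Subgroup.closure_induction generalizing x y with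
  | mem a ha =>
    obtain ⟨a, rfl⟩ := ha
    simp only [Rack.act'_apply, ShelfHom.map_act]
    exact Rack.left_cancel _
  | one => simp
  | mul a b _ _ ha hb => rw [Perm.mul_apply, Perm.mul_apply, ha, hb]
  | inv a _ ha => rw [← ha]; simp

/-- relative inner automorphism group -/
def Rel (f : ShelfHom P Q) : Subgroup (Perm P) where
  carrier := {g | g ∈ Inn P ∧ ∀ z, f (g z) = f z}
  mul_mem' := fun ha hb => ⟨(Inn P).mul_mem ha.1 hb.1, fun z => by rw [Perm.mul_apply, ha.2, hb.2]⟩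
  one_mem' := ⟨(Inn P).one_mem, fun _ => rfl⟩
  inv_mem' := fun {a} ha => ⟨(Inn P).inv_mem ha.1, fun z => by rw [← ha.2]; simp⟩

lemma rel_conj (f : ShelfHom P Q) {g n : Perm P} (hg : g ∈ Inn P) (hn : n ∈ Rel f) :
    g⁻¹ * n * g ∈ Rel f :=
  ⟨(Inn P).mul_mem ((Inn P).mul_mem ((Inn P).inv_mem hg) hn.1) hg, fun z => by
    rw [← inn_fib f hg]; simp [hn.2]⟩

lemma comm6 (f : ShelfHom P Q) (hf : DoublyTransitive f) (q : Q) (e : Fin 6 → P)
    (he : Function.Injective e) (hq : ∀ x, f x = q ↔ ∃ i, e i = x) (y : P) (n : Perm P)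
    (hn : n ∈ Rel f) (i : Fin 6) : n (y ◃ e i) = y ◃ n (e i) := by
  by_contra hne
  set s : Perm P := Rack.act' y with hs
  have hsI : s ∈ Inn P := Subgroup.subset_closure ⟨y, rfl⟩
  have hfe : ∀ i, f (e i) = q := fun i => (hq _).2 ⟨i, rfl⟩
  have ex : ∀ m ∈ Rel f, ∃ x : S6, ∀ i, m (e i) = e (x i) := by
    intro m hm
    choose x hx using fun i => (hq (m (e i))).1 (by rw [hm.2, hfe])
    have hi : Function.Injective x := fun i j h => he (m.injective (by rw [← hx, ← hx, h]))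
    exact ⟨Equiv.ofBijective x hi.bijective_of_finite, fun i => (hx i).symm⟩
  have iv : ∀ (m : Perm P) (x : S6), (∀ i, m (e i) = e (x i)) → ∀ i, m⁻¹ (e i) = e (x⁻¹ i) := by
    intro m x h i
    rw [Perm.inv_eq_iff_eq, h]; simp
  let L : Subgroup (S6 × S6) :=
    { carrier := {u | ∃ m ∈ Rel f, (∀ i, m (e i) = e (u.1 i)) ∧
        ∀ i, (s⁻¹ * m * s) (e i) = e (u.2 i)}
      mul_mem' := by
        rintro a b ⟨m, hm, a1, a2⟩ ⟨k, hk, b1, b2⟩
        refine ⟨m * k, (Rel f).mul_mem hm hk, fun i => by simp [a1, b1], fun i => ?_⟩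
        rw [show s⁻¹ * (m * k) * s = (s⁻¹ * m * s) * (s⁻¹ * k * s) by group, Perm.mul_apply, b2, a2]
        rfl
      one_mem' := ⟨1, (Rel f).one_mem, by simp, by simp⟩
      inv_mem' := by
        rintro a ⟨m, hm, a1, a2⟩
        refine ⟨m⁻¹, (Rel f).inv_mem hm, iv _ _ a1, ?_⟩
        rw [show s⁻¹ * m⁻¹ * s = (s⁻¹ * m * s)⁻¹ by group]
        exact iv _ _ a2 }
  have mk : ∀ m ∈ Rel f, ∃ u ∈ L, (∀ i, m (e i) = e (u.1 i)) ∧
      ∀ i, (s⁻¹ * m * s) (e i) = e (u.2 i) := by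
    intro m hm
    obtain ⟨x, hx⟩ := ex m hm
    obtain ⟨z, hz⟩ := ex _ (rel_conj f hsI hm)
    exact ⟨(x, z), ⟨m, hm, hx, hz⟩, hx, hz⟩
  refine fin6 L ?_ (fun p => ?_) ?_ ?_
  · rintro u ⟨m, hm, a1, a2⟩ v ⟨k, hk, b1, b2⟩ hu hv
    have mv : ∀ (m : Perm P) (u : S6 × S6), m ∈ Rel f → (∀ i, m (e i) = e (u.1 i)) →
        (∀ i, (s⁻¹ * m * s) (e i) = e (u.2 i)) → u.1 ≠ u.2 → y ≠ m y := by
      intro m u hm a1 a2 hu h
      have := inn_conj hm.1 y
      rw [← h, ← hs] at this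
      have e2 : s⁻¹ * m * s = m := by
        rw [mul_assoc, inv_mul_eq_iff_eq_mul]
        exact (mul_inv_eq_iff_eq_mul.1 this.symm)
      exact hu (Equiv.ext fun i => he (by rw [← a1, ← a2, e2]))
    obtain ⟨d, hd, hd1, hd2, hd3⟩ := hf.2 (f y) y (m y) y (k y) rfl (hm.2 y) rfl (hk.2 y)
      (mv m u hm a1 a2 hu) (mv k v hk b1 b2 hv)
    obtain ⟨δ, hδ⟩ := ex d ⟨hd, hd1⟩
    have c1 := inn_conj hd y
    have c2 := inn_conj hd (m y)
    rw [hd2, ← hs] at c1
    rw [hd3, inn_conj hk.1, inn_conj hm.1, ← hs] at c2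
    have c3 : s⁻¹ * k * s * k⁻¹ = d * (s⁻¹ * m * s * m⁻¹) * d⁻¹ := by
      calc s⁻¹ * k * s * k⁻¹ = s⁻¹ * (k * s * k⁻¹) := by group
        _ = (d * s * d⁻¹)⁻¹ * (d * (m * s * m⁻¹) * d⁻¹) := by rw [← c1, c2]
        _ = _ := by group
    have c4 : v.2 * v.1⁻¹ = δ * (u.2 * u.1⁻¹) * δ⁻¹ := by
      refine Equiv.ext fun i => he ?_
      rw [Perm.mul_apply, ← b2, ← iv _ _ b1, ← Perm.mul_apply, c3, Perm.mul_apply, iv _ _ hδ,
        Perm.mul_apply, Perm.mul_apply, iv _ _ a1, a2, hδ]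
      rfl
    rw [c4, Perm.card_support_conj]
  · let H : Subgroup S6 := L.map (MonoidHom.fst _ _) ⊓ MulAction.stabilizer S6 p
    obtain ⟨r, hr⟩ := exists_ne p
    have ho : MulAction.orbit H r = {p}ᶜ := by
      ext t
      constructor
      · rintro ⟨⟨g, hg0, hg⟩, rfl⟩ h
        have hg' : g p = p := hg
        exact hr (g.injective ((show g r = p from h).trans hg'.symm))
      · intro ht
        obtain ⟨d, hd, hd1, hd2, hd3⟩ := hf.2 q (e p) (e r) (e p) (e t) (hfe _) (hfe _) (hfe _)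
          (hfe _) (fun h => hr (he h).symm) (fun h => ht (he h).symm)
        obtain ⟨u, hu, a1, -⟩ := mk d ⟨hd, hd1⟩
        exact ⟨⟨u.1, ⟨u, hu, rfl⟩, he (by rw [← hd2]; simpa [hd2] using (a1 p).symm.trans hd2)⟩,
          he ((a1 r).symm.trans hd3)⟩
    have h5 : 5 ∣ Nat.card H := by
      have := MulAction.index_stabilizer H r
      rw [ho, Set.ncard_compl] at this
      simp only [Nat.card_eq_fintype_card, Fintype.card_fin, Set.ncard_singleton] at this
      exact (show 6 - 1 = 5 from rfl) ▸ this ▸ Subgroup.index_dvd_card _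
    haveI : Fact (Nat.Prime 5) := ⟨by norm_num⟩
    obtain ⟨⟨g, ⟨u, hu, rfl⟩, hg⟩, ho⟩ := exists_prime_orderOf_dvd_card' 5 h5
    rw [← Subgroup.orderOf_coe] at ho
    refine ⟨u, hu, fun h => ?_, ?_, hg⟩
    · simp [h] at ho
    · rw [← ho]; exact pow_orderOf_eq_one _
  · rintro u ⟨m, hm, -, a2⟩
    obtain ⟨v, hv, b1, -⟩ := mk _ (rel_conj f hsI hm)
    exact ⟨v, hv, Equiv.ext fun i => he (by rw [← b1, a2])⟩
  · obtain ⟨u, hu, a1, a2⟩ := mk n hn
    refine ⟨u, hu, fun h => hne ?_⟩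
    have := a2 i
    rw [← h, ← a1, Perm.mul_apply, Perm.mul_apply, Perm.inv_eq_iff_eq] at this
    exact this

/-- No fiber of a doubly transitive quandle homomorphism has exactly six elements. -/
theorem result (P Q : Type*) [Quandle P] [Quandle Q] (f : ShelfHom P Q)
    (hf : DoublyTransitive f) (q : Q) : Nat.card {x : P // f x = q} ≠ 6 := by
  intro h6
  haveI : Finite {x : P // f x = q} := Nat.finite_of_card_ne_zero (by omega)
  let E := (Finite.equivFinOfCardEq h6).symm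
  let e : Fin 6 → P := fun i => (E i).1
  have he : Function.Injective e := fun i j h => E.injective (Subtype.ext h)
  have hq : ∀ x, f x = q ↔ ∃ i, e i = x := fun x =>
    ⟨fun h => ⟨E.symm ⟨x, h⟩, by simp [e]⟩, fun ⟨i, hi⟩ => hi ▸ (E i).2⟩
  have hfe : ∀ i, f (e i) = q := fun i => (E i).2
  have A : ∀ g ∈ Inn P, ∀ n ∈ Rel f, ∀ (y : P) i, n (y ◃ g (e i)) = y ◃ n (g (e i)) := by
    intro g hg n hn y i
    refine comm6 f hf (f (g (e 0))) (fun i => g (e i)) (g.injective.comp he) (fun x => ?_) y n hn i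
    rw [← ais g x, inn_fib f hg, hfe, hq]
    simp [Equiv.eq_symm_apply]
  have B : ∀ t ∈ Inn P, ∀ g ∈ Inn P, ∀ n ∈ Rel f, ∀ i, n (t (g (e i))) = t (n (g (e i))) := by
    intro t ht
    induction ht using Subgroup.closure_induction with
    | mem x hx => obtain ⟨y, rfl⟩ := hx; exact fun g hg n hn i => A g hg n hn y i
    | one => simp
    | mul a b _ hb' ha hb =>
      intro g hg n hn i
      have := ha (b * g) ((Inn P).mul_mem hb' hg) n hn i
      simp only [Perm.mul_apply] at this ⊢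
      rw [this, hb g hg n hn i]
    | inv a ha' ha =>
      intro g hg n hn i
      have := ha (a⁻¹ * g) ((Inn P).mul_mem ((Inn P).inv_mem ha') hg) n hn i
      simp only [Perm.mul_apply, ais] at this
      rw [this]; simp
  have ne : ∀ i j : Fin 6, i ≠ j → e i ≠ e j := fun i j h h' => h (he h')
  obtain ⟨n, hn, hn1, hn2, hn3⟩ := hf.2 q (e 0) (e 1) (e 0) (e 2) (hfe _) (hfe _) (hfe _) (hfe _)
    (ne _ _ (by decide)) (ne _ _ (by decide))
  obtain ⟨m, hm, -, hm2, -⟩ := hf.2 q (e 0) (e 1) (e 1) (e 0) (hfe _) (hfe _) (hfe _) (hfe _)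
    (ne _ _ (by decide)) (ne _ _ (by decide))
  have := B m hm 1 (Inn P).one_mem n ⟨hn, hn1⟩ 0
  simp only [Perm.one_apply] at this
  rw [hm2, hn3, hn2, hm2] at this
  exact ne 2 1 (by decide) this

end Pool.Agent.Results.MP_4dd1f4_al.NoSix
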